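import Pool.Agent.Lib.Helper29.PiBasis.Space

/-!
# A Banach space with a `Π₁`-basis and without a `π₁`-basis (MP_426ceb_an)

The space is an equivalent renorming of the Hilbert space `ℓ²(ℕ, 𝕜)`, where `𝕜` is the real or the
complex field.

Sketch.  Let `e₀, e_0, e_1, …` be an orthonormal basis (one special vector, and the sites),
`τ_n = 4^{-n-2}` and let `P_n` be the orthogonal projection onto the span of the sites `e_i`, `i < n`,
and of `e₀ + τ_n e_n`.  Let `f = e₀ + ∑ (τ_n / 2) e_n`.  The new norm is the maximum of `‖x‖ / 2` and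
of the supremum of `|⟪g, x⟫|`, where `g` ranges over `f`, over all `P_{k_r} ⋯ P_{k_1} f` with
`k_1 < ⋯ < k_r`, and over `(3/5) e_i`.  All `P_n` are contractions for the new norm, so they form a
`Π₁`-basis.  If `(V_n)` is a `π₁`-basis, then for large `n` the projection `V_n` is orthogonal (it
fixes a point near which the new norm is half the Hilbert norm), it maps `f` to `f` or to some
`P_k f`, and nestedness forces `V_n f = f` for large `n`; then exposed points of the dual ball force
`V_n` to fix every site `e_i`, which is impossible for a finite rank operator.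
-/

set_option autoImplicit false

open Filter Topology

namespace Pool.Agent.Results.MP_426ceb_an.PiBasisNegative

universe u

/-- `w` is a `Π_lam`-basis of the normed space `E` over `𝕜`: a sequence of bounded finite rank
projections of norm at most `lam` that converges pointwise to the identity. -/
structure IsBigPiBasis (𝕜 : Type u) [RCLike 𝕜] (E : Type u) [NormedAddCommGroup E]
    [NormedSpace 𝕜 E] (lam : ℝ) (w : ℕ → E →L[𝕜] E) : Prop where
  idem : ∀ n, (w n).comp (w n) = w n
  finite_rank : ∀ n, FiniteDimensional 𝕜 (LinearMap.range (w n).toLinearMap)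
  strong : ∀ x, Tendsto (fun n => w n x) atTop (𝓝 x)
  norm_le : ∀ n, ‖w n‖ ≤ lam

/-- `w` is a `π_lam`-basis of `E`: a `Π_lam`-basis whose ranges are nested. -/
structure IsSmallPiBasis (𝕜 : Type u) [RCLike 𝕜] (E : Type u) [NormedAddCommGroup E]
    [NormedSpace 𝕜 E] (lam : ℝ) (w : ℕ → E →L[𝕜] E) : Prop extends IsBigPiBasis 𝕜 E lam w where
  nested : ∀ m n, m ≤ n → LinearMap.range (w m).toLinearMap ≤ LinearMap.range (w n).toLinearMap

/-- Over the real and over the complex field there is a Banach space, isomorphic to the Hilbert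
space `ℓ²`, that has a `Π₁`-basis but no `π₁`-basis. -/
theorem result (𝕜 : Type u) [RCLike 𝕜] :
    ∃ (E : Type u) (_ : NormedAddCommGroup E) (_ : NormedSpace 𝕜 E),
      CompleteSpace E ∧ Nonempty (E ≃L[𝕜] lp (fun _ : ℕ => 𝕜) 2) ∧
        (∃ w, IsBigPiBasis 𝕜 E 1 w) ∧ ¬ ∃ w, IsSmallPiBasis 𝕜 E 1 w := by
  refine ⟨Lib.Helper29.PiBasis.Sp 𝕜, inferInstance, inferInstance, inferInstance,
    ⟨Lib.Helper29.PiBasis.toL2C 𝕜⟩, ⟨Lib.Helper29.PiBasis.U 𝕜, ?_⟩, ?_⟩
  · exact ⟨Lib.Helper29.PiBasis.U_idem 𝕜, Lib.Helper29.PiBasis.U_finite 𝕜,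
      Lib.Helper29.PiBasis.U_tendsto 𝕜, Lib.Helper29.PiBasis.U_norm 𝕜⟩
  · rintro ⟨w, hw⟩
    exact Lib.Helper29.PiBasis.no_small 𝕜 hw.idem hw.norm_le hw.nested hw.strong hw.finite_rank

end Pool.Agent.Results.MP_426ceb_an.PiBasisNegative
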